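import Pool.Agent.GEN.StmtsZC

/-!
# Squad GEN, row REC: existence and first properties of the universal polynomials
-/

set_option autoImplicit false

namespace Pool.Agent.GEN.H72

open Finset Pool.Agent.Helper30_Simp2 Pool.Agent.GEN

section

variable {σ : Type} [Fintype σ]

open scoped Classical in
/-- the right hand side of the recursion -/
noncomputable def rh (I : Finset (σ →₀ ℕ)) (J : Finset σ) (l : Option (Finset (σ →₀ ℕ))) :
    Polynomial ℤ :=
  if Red I J then (if l = none then
    Polynomial.X ^ (dd I J - (Kc I J).card) * (Polynomial.X + 1) ^ ((Kc I J).card - 1)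
    else 0) else if l = some I then 1 else 0

open scoped Classical in
/-- the universal polynomials -/
noncomputable def PP (J : Finset σ) (I : Finset (σ →₀ ℕ)) (l : Option (Finset (σ →₀ ℕ))) :
    Polynomial ℤ :=
  rh I J l - ∑ K' ∈ (Kc I J).powerset.erase (Kc I J),
    Polynomial.X ^ gex I J (Kc I J) K' *
      (if h : (keep I (Kc I J) K').card < I.card then PP J (keep I (Kc I J) K') l else 0)
termination_by I.card

theorem occ_Kc {I : Finset (σ →₀ ℕ)} {J : Finset σ} (j : σ) (hj : j ∈ Kc I J) :
    ∃ α ∈ I, α j ≠ 0 := by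
  by_cases hR : Red I J
  · obtain ⟨α, h1, h2⟩ := (Kc_spec hR).2.1.2.2 j hj
    exact ⟨α, h1, by omega⟩
  · rw [Kc_neg hR] at hj
    exact absurd hj (Finset.notMem_empty j)

theorem disj_Kc (I : Finset (σ →₀ ℕ)) (J : Finset σ) : Disjoint (Kc I J) J := by
  by_cases hR : Red I J
  · exact (Kc_spec hR).1
  · rw [Kc_neg hR]
    exact Finset.disjoint_empty_left J

theorem gex_self (hD : DcbStmt) (I : Finset (σ →₀ ℕ)) (J : Finset σ) :
    gex I J (Kc I J) (Kc I J) = 0 ∧ keep I (Kc I J) (Kc I J) = I := by
  obtain ⟨h1, h2, _⟩ := hD σ I J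
  have e := (h2 (Kc I J) (Kc I J)).2
  refine ⟨?_, e⟩
  have h3 := (h1 (Kc I J) (Kc I J) occ_Kc (disj_Kc I J) (Finset.Subset.refl _)).2
  unfold gex
  rw [e]
  omega

theorem sum_split (hD : DcbStmt) (J : Finset σ)
    (P : Finset (σ →₀ ℕ) → Option (Finset (σ →₀ ℕ)) → Polynomial ℤ) (I : Finset (σ →₀ ℕ))
    (l : Option (Finset (σ →₀ ℕ))) [DecidableEq (Finset σ)] :
    ∑ K' ∈ (Kc I J).powerset,
      Polynomial.X ^ gex I J (Kc I J) K' * P (keep I (Kc I J) K') l =
    P I l + ∑ K' ∈ (Kc I J).powerset.erase (Kc I J),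
      Polynomial.X ^ gex I J (Kc I J) K' * P (keep I (Kc I J) K') l := by
  rw [← Finset.add_sum_erase _ _ (Finset.mem_powerset_self (Kc I J)), (gex_self hD I J).1,
    (gex_self hD I J).2, pow_zero, one_mul]

theorem natDegree_rh (hD : DcbStmt) (I : Finset (σ →₀ ℕ)) (J : Finset σ)
    (l : Option (Finset (σ →₀ ℕ))) : (rh I J l).natDegree ≤ dd I J := by
  unfold rh
  by_cases hR : Red I J
  · rw [if_pos hR]
    by_cases hl : l = none
    · rw [if_pos hl]
      have h3 := ((hD σ I J).1 (Kc I J) (Kc I J) occ_Kc (disj_Kc I J)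
        (Finset.Subset.refl _)).2
      have h4 : 1 ≤ (Kc I J).card := Finset.card_pos.2 (Kc_spec hR).2.1.1
      refine (Polynomial.natDegree_mul_le).trans ?_
      have h5 : (Polynomial.X ^ (dd I J - (Kc I J).card) : Polynomial ℤ).natDegree ≤
          dd I J - (Kc I J).card := Polynomial.natDegree_X_pow_le _
      have h6 : ((Polynomial.X + 1 : Polynomial ℤ) ^ ((Kc I J).card - 1)).natDegree ≤
          (Kc I J).card - 1 := by
        refine (Polynomial.natDegree_pow_le).trans ?_
        have h7 : (Polynomial.X + 1 : Polynomial ℤ).natDegree ≤ 1 :=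
          Polynomial.natDegree_add_le_of_degree_le Polynomial.natDegree_X_le
            (by rw [Polynomial.natDegree_one]; exact Nat.zero_le _)
        calc _ ≤ ((Kc I J).card - 1) * 1 := Nat.mul_le_mul_left _ h7
          _ = _ := mul_one _
      omega
    · rw [if_neg hl, Polynomial.natDegree_zero]
      exact Nat.zero_le _
  · rw [if_neg hR]
    by_cases hl : l = some I
    · rw [if_pos hl, Polynomial.natDegree_one]
      exact Nat.zero_le _
    · rw [if_neg hl, Polynomial.natDegree_zero]
      exact Nat.zero_le _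

/-- the recursion for the solutions of `IsP` -/
theorem isP_rec (hD : DcbStmt) {M : Finset (σ →₀ ℕ)} {J : Finset σ}
    {P : Finset (σ →₀ ℕ) → Option (Finset (σ →₀ ℕ)) → Polynomial ℤ} (hP : IsP M J P)
    {I : Finset (σ →₀ ℕ)} (hI : I ⊆ M) (l : Option (Finset (σ →₀ ℕ)))
    [DecidableEq (Finset σ)] :
    P I l = rh I J l - ∑ K' ∈ (Kc I J).powerset.erase (Kc I J),
      Polynomial.X ^ gex I J (Kc I J) K' * P (keep I (Kc I J) K') l := by
  have h1 := hP I hI l
  rw [sum_split hD J P I l] at h1
  have h2 : rh I J l = P I l + ∑ K' ∈ (Kc I J).powerset.erase (Kc I J),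
      Polynomial.X ^ gex I J (Kc I J) K' * P (keep I (Kc I J) K') l := by
    rw [h1]
    unfold rh
    by_cases hR : Red I J
    · simp only [if_pos hR]
    · simp only [if_neg hR]
  rw [h2]
  ring

theorem exists_isP (hD : DcbStmt) (M : Finset (σ →₀ ℕ)) (J : Finset σ) :
    IsP M J (PP J) := by
  classical
  intro I _ l
  rw [sum_split hD J (PP J) I l]
  have h1 : PP J I l = rh I J l - ∑ K' ∈ (Kc I J).powerset.erase (Kc I J),
      Polynomial.X ^ gex I J (Kc I J) K' * PP J (keep I (Kc I J) K') l := by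
    rw [PP]
    congr 1
    refine Finset.sum_congr (by congr) fun K' hK' => ?_
    have h2 := Finset.mem_erase.1 hK'
    have h3 : (keep I (Kc I J) K').card < I.card :=
      (hD σ I J).2.2.2.1 (Kc I J) K' occ_Kc (Finset.mem_powerset.1 h2.2) h2.1
    rw [dif_pos h3]
  rw [h1, sub_add_cancel]
  unfold rh
  by_cases hR : Red I J
  · simp only [if_pos hR]
  · simp only [if_neg hR]

end

/-- Row REC. -/
theorem rec (hD : DcbStmt) : RecStmt := by
  classical
  intro σ _ M J
  refine ⟨⟨PP J, exists_isP hD M J⟩, fun P hP => ⟨?_, ?_⟩⟩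
  · have main : ∀ n : ℕ, ∀ I : Finset (σ →₀ ℕ), I.card ≤ n → I ⊆ M → ∀ l,
        (P I l).natDegree ≤ dd I J := by
      intro n
      induction n with
      | zero =>
        intro I hn hI l
        rw [isP_rec hD hP hI l]
        refine (Polynomial.natDegree_sub_le _ _).trans (max_le (natDegree_rh hD I J l) ?_)
        refine Polynomial.natDegree_sum_le_of_forall_le _ _ fun K' hK' => ?_
        exfalso
        have h2 := Finset.mem_erase.1 hK'
        have h3 : (keep I (Kc I J) K').card < I.card :=
          (hD σ I J).2.2.2.1 (Kc I J) K' occ_Kc (Finset.mem_powerset.1 h2.2) h2.1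
        omega
      | succ n ih =>
        intro I hn hI l
        rw [isP_rec hD hP hI l]
        refine (Polynomial.natDegree_sub_le _ _).trans (max_le (natDegree_rh hD I J l) ?_)
        refine Polynomial.natDegree_sum_le_of_forall_le _ _ fun K' hK' => ?_
        have h2 := Finset.mem_erase.1 hK'
        have hsub : K' ⊆ Kc I J := Finset.mem_powerset.1 h2.2
        have h3 : (keep I (Kc I J) K').card < I.card :=
          (hD σ I J).2.2.2.1 (Kc I J) K' occ_Kc hsub h2.1
        have h4 := ih (keep I (Kc I J) K') (by omega)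
          ((((hD σ I J).2.1 (Kc I J) K').1).trans hI) l
        have h5 := (hD σ I J).1 (Kc I J) K' occ_Kc (disj_Kc I J) hsub
        have h6 := Finset.card_le_card hsub
        have h7 : (Polynomial.X ^ gex I J (Kc I J) K' : Polynomial ℤ).natDegree ≤
            gex I J (Kc I J) K' := Polynomial.natDegree_X_pow_le _
        refine (Polynomial.natDegree_mul_le).trans ?_
        have h8 : gex I J (Kc I J) K' =
          dd I J - (Kc I J).card + K'.card - dd (keep I (Kc I J) K') J := rfl
        omega
    exact fun I hI l => main I.card I le_rfl hI l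
  · have hR : ¬ Red (∅ : Finset (σ →₀ ℕ)) J := by
      rintro ⟨K, _, hK⟩
      obtain ⟨j, hj⟩ := hK.1.1
      obtain ⟨α, h1, _⟩ := hK.1.2.2 j hj
      exact absurd h1 (Finset.notMem_empty α)
    have h1 : ∀ l, P ∅ l = if l = some ∅ then 1 else 0 := by
      intro l
      rw [isP_rec hD hP (Finset.empty_subset M) l]
      have h2 : ((Kc (∅ : Finset (σ →₀ ℕ)) J).powerset.erase (Kc ∅ J)) = ∅ := by
        rw [Kc_neg hR]
        simp
      rw [h2, Finset.sum_empty, sub_zero]
      unfold rh
      rw [if_neg hR]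
    refine ⟨?_, fun l hl => ?_⟩
    · rw [h1, if_pos rfl]
    · rw [h1, if_neg hl]

end Pool.Agent.GEN.H72
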